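import Mathlib

/-!
# Energy landscape of signed couplings: the deterministic part

`A = D (J - I) + N` with `N` of operator norm at most `K`, all row sums of `A` at least `c D n`
and `K ≤ (c / 8) D n`. Then every configuration which satisfies the first-order condition, the
diagonal second-order condition and the second-order condition in the directions
`cos θ`, `sin θ` is constant.
-/

set_option autoImplicit false
set_option linter.unusedVariables false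
set_option maxHeartbeats 2000000

open Finset Real

namespace Pool.Agent.TH966.Sync

variable {n : ℕ}

/-- the noise part of `A` -/
noncomputable def NN (A : Fin n → Fin n → ℝ) (D : ℝ) (i j : Fin n) : ℝ :=
  A i j - (if i = j then 0 else D)

/-- quadratic form of the noise -/
noncomputable def qf (A : Fin n → Fin n → ℝ) (D : ℝ) (x : Fin n → ℝ) : ℝ :=
  ∑ i, x i * ∑ j, NN A D i j * x j

theorem qf_abs (A : Fin n → Fin n → ℝ) (D K : ℝ) (hK : 0 ≤ K)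
    (hN : ∀ x : Fin n → ℝ, ∑ i, (∑ j, NN A D i j * x j) ^ 2 ≤ K ^ 2 * ∑ j, x j ^ 2)
    (x : Fin n → ℝ) : |qf A D x| ≤ K * ∑ j, x j ^ 2 := by
  have h1 : (qf A D x) ^ 2 ≤ (∑ i, x i ^ 2) * ∑ i, (∑ j, NN A D i j * x j) ^ 2 :=
    Finset.sum_mul_sq_le_sq_mul_sq _ _ _
  have hS : 0 ≤ ∑ j, x j ^ 2 := Finset.sum_nonneg fun j _ => sq_nonneg _
  apply abs_le_of_sq_le_sq _ (by positivity)
  calc (qf A D x) ^ 2 ≤ (∑ i, x i ^ 2) * ∑ i, (∑ j, NN A D i j * x j) ^ 2 := h1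
    _ ≤ (∑ i, x i ^ 2) * (K ^ 2 * ∑ j, x j ^ 2) := mul_le_mul_of_nonneg_left (hN x) hS
    _ = (K * ∑ j, x j ^ 2) ^ 2 := by ring

/-- splitting `∑ A f` for `f` vanishing on the diagonal -/
theorem split (A : Fin n → Fin n → ℝ) (D : ℝ) (f : Fin n → Fin n → ℝ) (hf : ∀ i, f i i = 0) :
    ∑ i, ∑ j, A i j * f i j = D * ∑ i, ∑ j, f i j + ∑ i, ∑ j, NN A D i j * f i j := by
  rw [Finset.mul_sum, ← Finset.sum_add_distrib]
  refine Finset.sum_congr rfl fun i _ => ?_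
  rw [Finset.mul_sum, ← Finset.sum_add_distrib]
  refine Finset.sum_congr rfl fun j _ => ?_
  unfold NN
  by_cases h : i = j
  · subst h
    simp [hf]
  · simp only [h, if_false]
    ring

theorem rowsplit (A : Fin n → Fin n → ℝ) (D : ℝ) (x : Fin n → ℝ) (i : Fin n) :
    ∑ j, A i j * x j = D * (∑ j, x j) - D * x i + ∑ j, NN A D i j * x j := by
  have h1 : ∑ j, A i j * x j = ∑ j, ((D * x j - (if i = j then D * x j else 0)) +
      NN A D i j * x j) := by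
    refine Finset.sum_congr rfl fun j _ => ?_
    unfold NN
    split_ifs <;> ring
  rw [h1, Finset.sum_add_distrib, Finset.sum_sub_distrib, ← Finset.mul_sum,
    Finset.sum_ite_eq Finset.univ i, if_pos (Finset.mem_univ i)]

/-- numerical part 1 -/
theorem num1 (D K c n T P Q R q : ℝ) (hD : 0 < D) (hK : 0 ≤ K) (hc : 0 < c) (hc1 : c ≤ 1)
    (hn0 : 0 < n) (hP0 : 0 ≤ P) (hQ0 : 0 ≤ Q) (hPQ : P + Q = n) (hR : 0 ≤ R)
    (hK2 : K ≤ c / 8 * (D * n)) (hq : q ≤ 2 * K * n)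
    (h3 : 0 ≤ D * (T ^ 2 - P ^ 2 - 2 * R - Q ^ 2) + q) :
    n ^ 2 / 4 ≤ T ^ 2 ∧ D * (P ^ 2 + Q ^ 2) ≤ D * T ^ 2 + 2 * K * n := by
  have m0 : 0 ≤ D * R := mul_nonneg hD.le hR
  have m1 : D * (P ^ 2 + Q ^ 2) ≤ D * T ^ 2 + 2 * K * n := by
    have : D * (T ^ 2 - P ^ 2 - 2 * R - Q ^ 2) = D * T ^ 2 - D * (P ^ 2 + Q ^ 2) - 2 * (D * R) := by
      ring
    linarith
  refine ⟨?_, m1⟩
  have h8 : 2 * K * n ≤ 2 * (c / 8 * (D * n)) * n := by
    apply mul_le_mul_of_nonneg_right _ hn0.le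
    linarith
  have m2 : D * (P ^ 2 + Q ^ 2) ≤ D * (T ^ 2 + c / 4 * n ^ 2) := by
    calc D * (P ^ 2 + Q ^ 2) ≤ D * T ^ 2 + 2 * K * n := m1
      _ ≤ D * T ^ 2 + 2 * (c / 8 * (D * n)) * n := by linarith
      _ = _ := by ring
  have m3 := le_of_mul_le_mul_left m2 hD
  have m4 : n ^ 2 / 2 ≤ P ^ 2 + Q ^ 2 := by
    rw [← hPQ]; nlinarith [sq_nonneg (P - Q)]
  have m5 : c / 4 * n ^ 2 ≤ 1 / 4 * n ^ 2 := by
    apply mul_le_mul_of_nonneg_right _ (sq_nonneg _)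
    linarith
  linarith

/-- numerical part 2 -/
theorem num2 (D K c n T P Q : ℝ) (hD : 0 < D) (hK : 0 ≤ K) (hc : 0 < c) (hc1 : c ≤ 1)
    (hn0 : 0 < n) (hP0 : 0 ≤ P) (hQ0 : 0 ≤ Q) (hPQ : P + Q = n) (hT0 : 0 ≤ T) (hTn : T ≤ n)
    (hK2 : K ≤ c / 8 * (D * n)) (hT2 : n ^ 2 / 4 ≤ T ^ 2)
    (m1 : D * (P ^ 2 + Q ^ 2) ≤ D * T ^ 2 + 2 * K * n)
    (f3 : (D * T) ^ 2 * Q ≤ K ^ 2 * n) : 2 * (n - T) ≤ 3 * c / 4 * n := by
  obtain ⟨κ, hκ⟩ : ∃ κ, K = κ * (D * n) := ⟨K / (D * n), by field_simp⟩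
  have hDn : 0 < D * n := by positivity
  have hκ0 : 0 ≤ κ := by
    by_contra h
    push Not at h
    have := mul_neg_of_neg_of_pos h hDn
    linarith
  have hκc : κ ≤ c / 8 := by
    by_contra h
    push Not at h
    have := mul_lt_mul_of_pos_right h hDn
    rw [← hκ] at this
    linarith
  have hn2 : (0 : ℝ) ≤ n ^ 2 := sq_nonneg _
  have hQ2 : Q ≤ 4 * κ ^ 2 * n := by
    have h5 : D ^ 2 * (n ^ 2 / 4) * Q ≤ κ ^ 2 * (D ^ 2 * n ^ 2) * n := by
      calc D ^ 2 * (n ^ 2 / 4) * Q ≤ D ^ 2 * T ^ 2 * Q := by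
            apply mul_le_mul_of_nonneg_right _ hQ0
            exact mul_le_mul_of_nonneg_left hT2 (sq_nonneg _)
        _ = (D * T) ^ 2 * Q := by ring
        _ ≤ K ^ 2 * n := f3
        _ = κ ^ 2 * (D ^ 2 * n ^ 2) * n := by rw [hκ]; ring
    have h6 : (D ^ 2 * n ^ 2 / 4) * Q ≤ (D ^ 2 * n ^ 2 / 4) * (4 * κ ^ 2 * n) := by
      calc (D ^ 2 * n ^ 2 / 4) * Q = D ^ 2 * (n ^ 2 / 4) * Q := by ring
        _ ≤ _ := h5
        _ = _ := by ring
    exact le_of_mul_le_mul_left h6 (by positivity)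
  have m3 : P ^ 2 + Q ^ 2 ≤ T ^ 2 + 2 * κ * n ^ 2 := by
    have : D * (P ^ 2 + Q ^ 2) ≤ D * (T ^ 2 + 2 * κ * n ^ 2) := by
      rw [hκ] at m1
      calc D * (P ^ 2 + Q ^ 2) ≤ D * T ^ 2 + 2 * (κ * (D * n)) * n := m1
        _ = _ := by ring
    exact le_of_mul_le_mul_left this hD
  have h5 : n ^ 2 - 2 * n * Q ≤ P ^ 2 + Q ^ 2 := by
    have : P = n - Q := by linarith
    rw [this]
    nlinarith [sq_nonneg Q]
  have h6 : 2 * n * Q ≤ 8 * κ ^ 2 * n ^ 2 := by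
    calc 2 * n * Q ≤ 2 * n * (4 * κ ^ 2 * n) := mul_le_mul_of_nonneg_left hQ2 (by positivity)
      _ = _ := by ring
  have h7 : κ ^ 2 ≤ κ * (1 / 8) := by
    rw [sq]
    exact mul_le_mul_of_nonneg_left (by linarith) hκ0
  have h8 : 8 * κ ^ 2 * n ^ 2 ≤ κ * n ^ 2 := by
    apply mul_le_mul_of_nonneg_right _ hn2
    linarith
  have h9 : κ * n ^ 2 ≤ c / 8 * n ^ 2 := mul_le_mul_of_nonneg_right hκc hn2
  have m4 : n ^ 2 * (1 - 3 * c / 8) ≤ T ^ 2 := by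
    have : n ^ 2 * (1 - 3 * c / 8) = n ^ 2 - 3 * (c / 8 * n ^ 2) := by ring
    rw [this]
    linarith
  have h10 : n * (n - T) ≤ n * (3 * c / 8 * n) := by
    have : T ^ 2 ≤ n * T := by
      rw [sq]; exact mul_le_mul_of_nonneg_right hTn hT0
    have e : n * (3 * c / 8 * n) = n ^ 2 - n ^ 2 * (1 - 3 * c / 8) := by ring
    have e2 : n * (n - T) = n ^ 2 - n * T := by ring
    rw [e, e2]
    linarith
  have h11 := le_of_mul_le_mul_left h10 hn0
  linarith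

/-- numerical part 3 -/
theorem num3 (x y t ρ : ℝ) (hxy : x ^ 2 + y ^ 2 = 1) (ht : 0 ≤ t) (hρ : 0 < ρ) :
    ρ ^ 2 * ((x - 1) ^ 2 + y ^ 2) ≤ 4 * ((t * x - ρ) ^ 2 + (t * y) ^ 2) := by
  have k7 : (x - 1) ^ 2 + y ^ 2 = 2 - 2 * x := by linarith [sq (x - 1)]
  have k8 : (t * x - ρ) ^ 2 + (t * y) ^ 2 = t ^ 2 - 2 * t * ρ * x + ρ ^ 2 := by
    have : (t * x - ρ) ^ 2 + (t * y) ^ 2 =
      t ^ 2 * (x ^ 2 + y ^ 2) - 2 * t * ρ * x + ρ ^ 2 := by ring
    rw [this, hxy]; ring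
  rw [k7, k8]
  have hxm : -1 ≤ x := by nlinarith [sq_nonneg y]
  have hx1 : x ≤ 1 := by nlinarith [sq_nonneg y]
  by_cases hx : 0 ≤ x
  · have e : 4 * (t ^ 2 - 2 * t * ρ * x + ρ ^ 2) - ρ ^ 2 * (2 - 2 * x) =
      4 * (t - ρ * x) ^ 2 + 2 * ρ ^ 2 * ((1 - x) * (1 + 2 * x)) := by ring
    have : 0 ≤ 2 * ρ ^ 2 * ((1 - x) * (1 + 2 * x)) :=
      mul_nonneg (by positivity) (mul_nonneg (by linarith) (by linarith))
    nlinarith [sq_nonneg (t - ρ * x)]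
  · push Not at hx
    have h1 : 0 ≤ t * ρ * (- x) := by
      apply mul_nonneg (mul_nonneg ht hρ.le); linarith
    have h2 : 0 ≤ (1 + x) * ρ ^ 2 := mul_nonneg (by linarith) (sq_nonneg _)
    have e : 4 * (t ^ 2 - 2 * t * ρ * x + ρ ^ 2) - ρ ^ 2 * (2 - 2 * x) =
      4 * t ^ 2 + 8 * (t * ρ * (-x)) + 2 * ((1 + x) * ρ ^ 2) := by ring
    nlinarith [sq_nonneg t]

/-- numerical part 3b -/
theorem num3b (x y a b ρ : ℝ) (k3 : x ^ 2 + y ^ 2 = 1) (k1 : y * a - x * b = 0)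
    (k2 : 0 ≤ x * a + y * b) (hρ : 0 < ρ) :
    ρ ^ 2 * ((x - 1) ^ 2 + y ^ 2) ≤ 4 * ((a - ρ) ^ 2 + b ^ 2) := by
  obtain ⟨t, ht⟩ : ∃ t, t = x * a + y * b := ⟨_, rfl⟩
  have k4 : a = t * x := by
    have : t * x = (x ^ 2 + y ^ 2) * a - y * (y * a - x * b) := by
      rw [ht]; ring
    rw [this, k3, k1]; ring
  have k5 : b = t * y := by
    have : t * y = (x ^ 2 + y ^ 2) * b + x * (y * a - x * b) := by
      rw [ht]; ring
    rw [this, k3, k1]; ring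
  have := num3 x y t ρ k3 (by rw [ht]; exact k2) hρ
  rw [k4, k5]
  exact this

/-- numerical part 4 -/
theorem num4 (D K c n E : ℝ) (hD : 0 < D) (hK : 0 ≤ K) (hc : 0 < c)
    (hK2 : K ≤ c / 8 * (D * n)) (hn : 8 < c * n) (hE0 : 0 ≤ E)
    (h5 : (5 * c / 8 * (D * n)) ^ 2 * E ≤ 8 * (K ^ 2 + D ^ 2) * E) : E = 0 := by
  by_contra hne
  have hEpos : 0 < E := lt_of_le_of_ne hE0 (Ne.symm hne)
  have h6 := le_of_mul_le_mul_right h5 hEpos
  have h7 : K ^ 2 ≤ (c / 8 * (D * n)) ^ 2 := pow_le_pow_left₀ hK hK2 2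
  have h8 : (8 : ℝ) ^ 2 < (c * n) ^ 2 := pow_lt_pow_left₀ hn (by norm_num) (by norm_num)
  have h9 : D ^ 2 * 8 ^ 2 < D ^ 2 * (c * n) ^ 2 := mul_lt_mul_of_pos_left h8 (by positivity)
  have e1 : (5 * c / 8 * (D * n)) ^ 2 = 25 / 64 * (D ^ 2 * (c * n) ^ 2) := by ring
  have e2 : (c / 8 * (D * n)) ^ 2 = 1 / 64 * (D ^ 2 * (c * n) ^ 2) := by ring
  rw [e1] at h6
  rw [e2] at h7
  have h10 : 0 < D ^ 2 := by positivity
  linarith

theorem core (A : Fin n → Fin n → ℝ) (D K c : ℝ) (hD : 0 < D) (hK : 0 ≤ K) (hc : 0 < c)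
    (hc1 : c ≤ 1)
    (hN : ∀ x : Fin n → ℝ, ∑ i, (∑ j, NN A D i j * x j) ^ 2 ≤ K ^ 2 * ∑ j, x j ^ 2)
    (hr : ∀ i, c * (D * n) ≤ ∑ j, A i j)
    (hK2 : K ≤ c / 8 * (D * n)) (hn : 8 < c * n)
    (x y : Fin n → ℝ) (hxy : ∀ i, x i ^ 2 + y i ^ 2 = 1) (hy0 : ∑ i, y i = 0)
    (hx0 : 0 ≤ ∑ i, x i)
    (h1 : ∀ i, y i * (∑ j, A i j * x j) - x i * (∑ j, A i j * y j) = 0)
    (h2 : ∀ i, 0 ≤ x i * (∑ j, A i j * x j) + y i * (∑ j, A i j * y j))
    (h3 : 0 ≤ ∑ i, ∑ j, A i j *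
      ((x i * x j + y i * y j) * (1 - (x i * x j + y i * y j)))) :
    ∀ i, x i = 1 ∧ y i = 0 := by
  have hn0 : (0 : ℝ) < n := by
    by_contra h
    push Not at h
    nlinarith
  set T : ℝ := ∑ i, x i with hT
  set P : ℝ := ∑ i, x i ^ 2 with hP
  set Q : ℝ := ∑ i, y i ^ 2 with hQ
  have hPQ : P + Q = n := by
    rw [hP, hQ, ← Finset.sum_add_distrib]
    simp [hxy]
  have hP0 : 0 ≤ P := Finset.sum_nonneg fun i _ => sq_nonneg _
  have hQ0 : 0 ≤ Q := Finset.sum_nonneg fun i _ => sq_nonneg _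
  have hxle : ∀ i, x i ≤ 1 := fun i => by nlinarith [hxy i, sq_nonneg (y i), sq_nonneg (x i - 1)]
  have hTn : T ≤ n := by
    calc T ≤ ∑ _i : Fin n, (1 : ℝ) := Finset.sum_le_sum fun i _ => hxle i
      _ = n := by simp
  -- second order condition
  have e1 : ∑ i, ∑ j, ((x i * x j + y i * y j) * (1 - (x i * x j + y i * y j))) =
      T ^ 2 - P ^ 2 - 2 * (∑ i, x i * y i) ^ 2 - Q ^ 2 := by
    have a1 : T ^ 2 = ∑ i, ∑ j, x i * x j := by
      rw [sq, hT, Finset.sum_mul_sum]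
    have a2 : (0 : ℝ) = ∑ i, ∑ j, y i * y j := by
      rw [← Finset.sum_mul_sum, hy0]; ring
    have a3 : P ^ 2 = ∑ i, ∑ j, x i ^ 2 * x j ^ 2 := by
      rw [sq, hP, Finset.sum_mul_sum]
    have a4 : Q ^ 2 = ∑ i, ∑ j, y i ^ 2 * y j ^ 2 := by
      rw [sq, hQ, Finset.sum_mul_sum]
    have a5 : (∑ i, x i * y i) ^ 2 = ∑ i, ∑ j, (x i * y i) * (x j * y j) := by
      rw [sq, Finset.sum_mul_sum]
    have : T ^ 2 - P ^ 2 - 2 * (∑ i, x i * y i) ^ 2 - Q ^ 2 =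
        T ^ 2 + 0 - P ^ 2 - 2 * (∑ i, x i * y i) ^ 2 - Q ^ 2 := by ring
    rw [this, a1, a3, a4, a5]
    nth_rewrite 1 [a2]
    rw [Finset.mul_sum, ← Finset.sum_add_distrib, ← Finset.sum_sub_distrib,
      ← Finset.sum_sub_distrib, ← Finset.sum_sub_distrib]
    refine Finset.sum_congr rfl fun i _ => ?_
    rw [Finset.mul_sum, ← Finset.sum_add_distrib, ← Finset.sum_sub_distrib,
      ← Finset.sum_sub_distrib, ← Finset.sum_sub_distrib]
    refine Finset.sum_congr rfl fun j _ => ?_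
    ring
  have e2 : ∑ i, ∑ j, NN A D i j * ((x i * x j + y i * y j) * (1 - (x i * x j + y i * y j))) =
      qf A D x + qf A D y - qf A D (fun i => x i ^ 2) - 2 * qf A D (fun i => x i * y i)
        - qf A D (fun i => y i ^ 2) := by
    unfold qf
    rw [Finset.mul_sum, ← Finset.sum_add_distrib, ← Finset.sum_sub_distrib,
      ← Finset.sum_sub_distrib, ← Finset.sum_sub_distrib]
    refine Finset.sum_congr rfl fun i _ => ?_
    simp only [Finset.mul_sum]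
    rw [← Finset.sum_add_distrib, ← Finset.sum_sub_distrib, ← Finset.sum_sub_distrib,
      ← Finset.sum_sub_distrib]
    refine Finset.sum_congr rfl fun j _ => ?_
    ring
  rw [split A D _ (by
    intro i
    have : x i * x i + y i * y i = 1 := by nlinarith [hxy i]
    rw [this]; ring), e1, e2] at h3
  have q1 := qf_abs A D K hK hN x
  have q2 := qf_abs A D K hK hN y
  have q3 := qf_abs A D K hK hN (fun i => x i ^ 2)
  have q4 := qf_abs A D K hK hN (fun i => x i * y i)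
  have q5 := qf_abs A D K hK hN (fun i => y i ^ 2)
  have q6 : (∑ i, (x i ^ 2) ^ 2) + 2 * (∑ i, (x i * y i) ^ 2) + ∑ i, (y i ^ 2) ^ 2 = n := by
    rw [Finset.mul_sum, ← Finset.sum_add_distrib, ← Finset.sum_add_distrib]
    have : ∀ i, (x i ^ 2) ^ 2 + 2 * (x i * y i) ^ 2 + (y i ^ 2) ^ 2 = 1 := by
      intro i
      have := hxy i
      calc (x i ^ 2) ^ 2 + 2 * (x i * y i) ^ 2 + (y i ^ 2) ^ 2 = (x i ^ 2 + y i ^ 2) ^ 2 := by ring
        _ = 1 := by rw [this]; norm_num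
    simp [this]
  have hnoise : qf A D x + qf A D y - qf A D (fun i => x i ^ 2) - 2 * qf A D (fun i => x i * y i)
        - qf A D (fun i => y i ^ 2) ≤ 2 * K * n := by
    have b1 := (abs_le.mp q1).2
    have b2 := (abs_le.mp q2).2
    have b3 := (abs_le.mp q3).1
    have b4 := (abs_le.mp q4).1
    have b5 := (abs_le.mp q5).1
    have : 2 * K * (n : ℝ) = K * P + K * Q + K * ((∑ i, (x i ^ 2) ^ 2) +
        2 * (∑ i, (x i * y i) ^ 2) + ∑ i, (y i ^ 2) ^ 2) := by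
      rw [q6, ← hPQ]; ring
    rw [this]
    linarith
  have hR : 0 ≤ (∑ i, x i * y i) ^ 2 := sq_nonneg _
  obtain ⟨hT2, m1⟩ := num1 D K c n T P Q _ _ hD hK hc hc1 hn0 hP0 hQ0 hPQ hR hK2 hnoise h3
  -- first-order condition
  have f1 : ∀ i, D * T * y i = x i * (∑ j, NN A D i j * y j) - y i * (∑ j, NN A D i j * x j) := by
    intro i
    have := h1 i
    rw [rowsplit A D x i, rowsplit A D y i, hy0] at this
    linear_combination this
  have f2 : ∀ i, (D * T) ^ 2 * y i ^ 2 ≤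
      (∑ j, NN A D i j * y j) ^ 2 + (∑ j, NN A D i j * x j) ^ 2 := by
    intro i
    have h4 : (D * T) ^ 2 * y i ^ 2 = (x i * (∑ j, NN A D i j * y j) -
        y i * (∑ j, NN A D i j * x j)) ^ 2 := by
      rw [← f1 i]; ring
    rw [h4]
    have h5 := hxy i
    set a := ∑ j, NN A D i j * y j
    set b := ∑ j, NN A D i j * x j
    have : a ^ 2 + b ^ 2 = (x i ^ 2 + y i ^ 2) * (a ^ 2 + b ^ 2) := by rw [h5]; ring
    rw [this]
    nlinarith [sq_nonneg (x i * b + y i * a)]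
  have f3 : (D * T) ^ 2 * Q ≤ K ^ 2 * n := by
    calc (D * T) ^ 2 * Q = ∑ i, (D * T) ^ 2 * y i ^ 2 := by rw [hQ, Finset.mul_sum]
      _ ≤ ∑ i, ((∑ j, NN A D i j * y j) ^ 2 + (∑ j, NN A D i j * x j) ^ 2) :=
          Finset.sum_le_sum fun i _ => f2 i
      _ ≤ K ^ 2 * Q + K ^ 2 * P := by
          rw [Finset.sum_add_distrib]
          exact add_le_add (hN y) (hN x)
      _ = K ^ 2 * n := by rw [← hPQ]; ring
  have hE3 : 2 * (n - T) ≤ 3 * c / 4 * n :=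
    num2 D K c n T P Q hD hK hc hc1 hn0 hP0 hQ0 hPQ hx0 hTn hK2 hT2 m1 f3
  set E : ℝ := ∑ i, ((x i - 1) ^ 2 + y i ^ 2) with hE
  have hE1 : E = 2 * (n - T) := by
    have : ∀ i, (x i - 1) ^ 2 + y i ^ 2 = 2 - 2 * x i := fun i => by linarith [hxy i, sq (x i - 1)]
    rw [hE]
    simp only [this]
    rw [Finset.sum_sub_distrib, ← Finset.mul_sum, ← hT]
    simp
    ring
  have hE0 : 0 ≤ E := Finset.sum_nonneg fun i _ => by positivity
  have hE2 : E ≤ 3 * c / 4 * n := by rw [hE1]; exact hE3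
  -- the fixed point inequality
  set w : Fin n → ℝ := fun i => (∑ j, NN A D i j * (x j - 1)) - D * (x i - 1) with hw
  set v : Fin n → ℝ := fun i => (∑ j, NN A D i j * y j) - D * y i with hv
  set ρ : Fin n → ℝ := fun i => (∑ j, A i j) - D * E / 2 with hρ
  have hρ1 : ∀ i, 5 * c / 8 * (D * n) ≤ ρ i := by
    intro i
    have := hr i
    have h5 : D * E ≤ D * (3 * c / 4 * n) := mul_le_mul_of_nonneg_left hE2 hD.le
    have h6 : D * (3 * c / 4 * n) = 3 / 4 * (c * (D * n)) := by ring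
    have h7 : 5 * c / 8 * (D * n) = 5 / 8 * (c * (D * n)) := by ring
    rw [h7]
    rw [h6] at h5
    show _ ≤ (∑ j, A i j) - D * E / 2
    linarith
  have g1 : ∀ i, ∑ j, A i j * x j = ρ i + w i := by
    intro i
    have h5 : ∑ j, A i j * x j = ∑ j, A i j + ∑ j, A i j * (x j - 1) := by
      rw [← Finset.sum_add_distrib]
      exact Finset.sum_congr rfl fun j _ => by ring
    have h6 : ∑ j, (x j - 1) = - E / 2 := by
      rw [Finset.sum_sub_distrib, ← hT, hE1]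
      simp
      ring
    rw [h5, rowsplit A D (fun j => x j - 1) i, h6]
    simp only [hρ, hw]
    ring
  have g2 : ∀ i, ∑ j, A i j * y j = v i := by
    intro i
    rw [rowsplit A D y i, hy0]
    simp only [hv]
    ring
  have g3 : ∀ i, ρ i ^ 2 * ((x i - 1) ^ 2 + y i ^ 2) ≤ 4 * (w i ^ 2 + v i ^ 2) := by
    intro i
    have hρp : 0 < ρ i := lt_of_lt_of_le (by positivity) (hρ1 i)
    have k1 := h1 i
    have k2 := h2 i
    rw [g1, g2] at k1 k2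
    have k6 := num3b (x i) (y i) (ρ i + w i) (v i) (ρ i) (hxy i) k1 k2 hρp
    rw [add_sub_cancel_left] at k6
    exact k6
  have g4 : (5 * c / 8 * (D * n)) ^ 2 * E ≤ 4 * (∑ i, (w i ^ 2 + v i ^ 2)) := by
    rw [hE, Finset.mul_sum, Finset.mul_sum]
    refine Finset.sum_le_sum fun i _ => ?_
    refine le_trans ?_ (g3 i)
    apply mul_le_mul_of_nonneg_right _ (by positivity)
    exact pow_le_pow_left₀ (by positivity) (hρ1 i) 2
  have g5 : ∑ i, (w i ^ 2 + v i ^ 2) ≤ 2 * (K ^ 2 + D ^ 2) * E := by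
    have l1 : ∀ i, w i ^ 2 + v i ^ 2 ≤ 2 * ((∑ j, NN A D i j * (x j - 1)) ^ 2) +
        2 * ((∑ j, NN A D i j * y j) ^ 2) + 2 * D ^ 2 * ((x i - 1) ^ 2 + y i ^ 2) := by
      intro i
      simp only [hw, hv]
      nlinarith [sq_nonneg ((∑ j, NN A D i j * (x j - 1)) + D * (x i - 1)),
        sq_nonneg ((∑ j, NN A D i j * y j) + D * y i)]
    calc ∑ i, (w i ^ 2 + v i ^ 2) ≤ ∑ i, (2 * ((∑ j, NN A D i j * (x j - 1)) ^ 2) +
        2 * ((∑ j, NN A D i j * y j) ^ 2) + 2 * D ^ 2 * ((x i - 1) ^ 2 + y i ^ 2)) :=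
          Finset.sum_le_sum fun i _ => l1 i
      _ = 2 * (∑ i, (∑ j, NN A D i j * (x j - 1)) ^ 2) +
          2 * (∑ i, (∑ j, NN A D i j * y j) ^ 2) + 2 * D ^ 2 * E := by
          rw [Finset.sum_add_distrib, Finset.sum_add_distrib, ← Finset.mul_sum, ← Finset.mul_sum,
            ← Finset.mul_sum]
      _ ≤ 2 * (K ^ 2 * ∑ j, (x j - 1) ^ 2) + 2 * (K ^ 2 * ∑ j, y j ^ 2) + 2 * D ^ 2 * E := by
          have := hN (fun j => x j - 1)
          have := hN y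
          linarith
      _ = 2 * (K ^ 2 + D ^ 2) * E := by
          have : E = (∑ j, (x j - 1) ^ 2) + ∑ j, y j ^ 2 := by
            rw [hE, Finset.sum_add_distrib]
          rw [this]; ring
  have hEz : E = 0 := by
    refine num4 D K c n E hD hK hc hK2 hn hE0 ?_
    linarith
  intro i
  have h5 : (x i - 1) ^ 2 + y i ^ 2 = 0 := by
    have := (Finset.sum_eq_zero_iff_of_nonneg (fun i _ => by positivity :
      ∀ i ∈ Finset.univ, 0 ≤ (x i - 1) ^ 2 + y i ^ 2)).mp hEz i (Finset.mem_univ i)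
    exact this
  constructor
  · nlinarith [sq_nonneg (x i - 1), sq_nonneg (y i)]
  · nlinarith [sq_nonneg (x i - 1), sq_nonneg (y i)]

/-- deterministic theorem for angle configurations -/
theorem det (A : Fin n → Fin n → ℝ) (D K c : ℝ) (hD : 0 < D) (hK : 0 ≤ K) (hc : 0 < c)
    (hc1 : c ≤ 1)
    (hN : ∀ x : Fin n → ℝ, ∑ i, (∑ j, NN A D i j * x j) ^ 2 ≤ K ^ 2 * ∑ j, x j ^ 2)
    (hr : ∀ i, c * (D * n) ≤ ∑ j, A i j)
    (hK2 : K ≤ c / 8 * (D * n)) (hn : 8 < c * n) (θ : Fin n → ℝ)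
    (h1 : ∀ i, ∑ j, A i j * sin (θ i - θ j) = 0)
    (h2 : ∀ i, 0 ≤ ∑ j, A i j * cos (θ i - θ j))
    (h3 : 0 ≤ ∑ i, ∑ j, A i j * (cos (θ i - θ j) * (1 - cos (θ i - θ j)))) :
    ∀ i j, ∃ k : ℤ, θ i - θ j = 2 * π * (k : ℝ) := by
  set z : ℂ := ⟨∑ i, cos (θ i), ∑ i, sin (θ i)⟩ with hz
  set α : ℝ := Complex.arg z with hα
  have hc' : ∑ i, cos (θ i) = ‖z‖ * cos α := (Complex.norm_mul_cos_arg z).symm
  have hs' : ∑ i, sin (θ i) = ‖z‖ * sin α := (Complex.norm_mul_sin_arg z).symm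
  have hsum1 : ∑ i, sin (θ i - α) = 0 := by
    simp only [sin_sub]
    rw [Finset.sum_sub_distrib, ← Finset.sum_mul, ← Finset.sum_mul, hc', hs']
    ring
  have hsum2 : 0 ≤ ∑ i, cos (θ i - α) := by
    simp only [cos_sub]
    rw [Finset.sum_add_distrib, ← Finset.sum_mul, ← Finset.sum_mul, hc', hs']
    have : ‖z‖ * cos α * cos α + ‖z‖ * sin α * sin α = ‖z‖ := by
      have := cos_sq_add_sin_sq α
      calc ‖z‖ * cos α * cos α + ‖z‖ * sin α * sin α = ‖z‖ * (cos α ^ 2 + sin α ^ 2) := by ring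
        _ = ‖z‖ := by rw [this]; ring
    rw [this]
    exact norm_nonneg _
  have ec : ∀ i j, cos (θ i - θ j) = cos (θ i - α) * cos (θ j - α) + sin (θ i - α) * sin (θ j - α) := by
    intro i j
    rw [← cos_sub]
    congr 1
    ring
  have es : ∀ i j, sin (θ i - θ j) = sin (θ i - α) * cos (θ j - α) - cos (θ i - α) * sin (θ j - α) := by
    intro i j
    rw [← sin_sub]
    congr 1
    ring
  have key := core A D K c hD hK hc hc1 hN hr hK2 hn (fun i => cos (θ i - α))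
    (fun i => sin (θ i - α)) (fun i => cos_sq_add_sin_sq _) hsum1 hsum2
    (by
      intro i
      rw [← h1 i, Finset.mul_sum, Finset.mul_sum, ← Finset.sum_sub_distrib]
      refine Finset.sum_congr rfl fun j _ => ?_
      rw [es i j]
      ring)
    (by
      intro i
      refine le_of_le_of_eq (h2 i) ?_
      rw [Finset.mul_sum, Finset.mul_sum, ← Finset.sum_add_distrib]
      refine Finset.sum_congr rfl fun j _ => ?_
      rw [ec i j]
      ring)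
    (by
      refine le_of_le_of_eq h3 ?_
      refine Finset.sum_congr rfl fun i _ => Finset.sum_congr rfl fun j _ => ?_
      rw [ec i j])
  intro i j
  obtain ⟨k, hk⟩ := (cos_eq_one_iff _).mp (key i).1
  obtain ⟨l, hl⟩ := (cos_eq_one_iff _).mp (key j).1
  refine ⟨k - l, ?_⟩
  push_cast
  linarith

end Pool.Agent.TH966.Sync
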