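import Mathlib

/-!
# Energy landscape of signed couplings: conditions at a local minimum
-/

set_option autoImplicit false
set_option linter.unusedVariables false
set_option maxHeartbeats 1000000

open Finset Real Filter Topology

namespace Pool.Agent.TH966.Sync

variable {n : ℕ}

/-- the energy -/
noncomputable def En (A : Fin n → Fin n → ℝ) (φ : Fin n → ℝ) : ℝ :=
  (1 / 2 : ℝ) * ∑ i, ∑ j, A i j * (1 - cos (φ i - φ j))

theorem first_aux (A : Fin n → Fin n → ℝ) (θ : Fin n → ℝ) (h : IsLocalMin (En A) θ)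
    (u : Fin n → ℝ) : ∑ i, ∑ j, A i j * ((u i - u j) * sin (θ i - θ j)) = 0 := by
  have h1 : IsLocalMin (fun t : ℝ => En A (fun i => θ i + t * u i)) 0 := by
    have hc : ContinuousAt (fun t : ℝ => (fun i => θ i + t * u i : Fin n → ℝ)) 0 := by
      apply Continuous.continuousAt
      fun_prop
    have ht : Tendsto (fun t : ℝ => (fun i => θ i + t * u i : Fin n → ℝ)) (𝓝 0) (𝓝 θ) := by
      have := hc.tendsto
      simpa using this
    have h2 := ht.eventually h
    show ∀ᶠ t in 𝓝 (0 : ℝ), En A (fun i => θ i + 0 * u i) ≤ En A (fun i => θ i + t * u i)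
    filter_upwards [h2] with t ht
    simpa using ht
  have h2 : HasDerivAt (fun t : ℝ => En A (fun i => θ i + t * u i))
      ((1 / 2 : ℝ) * ∑ i, ∑ j, A i j * ((u i - u j) * sin (θ i - θ j))) 0 := by
    unfold En
    apply HasDerivAt.const_mul
    apply HasDerivAt.fun_sum
    intro i _
    apply HasDerivAt.fun_sum
    intro j _
    apply HasDerivAt.const_mul
    have h3 : HasDerivAt (fun t : ℝ => θ i + t * u i - (θ j + t * u j)) (u i - u j) 0 := by
      have a1 : HasDerivAt (fun t : ℝ => θ i + t * u i) (u i) 0 := by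
        simpa using ((hasDerivAt_id (0 : ℝ)).mul_const (u i)).const_add (θ i)
      have a2 : HasDerivAt (fun t : ℝ => θ j + t * u j) (u j) 0 := by
        simpa using ((hasDerivAt_id (0 : ℝ)).mul_const (u j)).const_add (θ j)
      exact a1.sub a2
    have h4 := (h3.cos).const_sub 1
    have h5 : -(-sin (θ i + 0 * u i - (θ j + 0 * u j)) * (u i - u j)) =
        (u i - u j) * sin (θ i - θ j) := by
      simp only [zero_mul, add_zero]
      ring
    rw [h5] at h4
    exact h4
  have h3 := h1.hasDerivAt_eq_zero h2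
  linarith

theorem first (A : Fin n → Fin n → ℝ) (hs : ∀ i j, A i j = A j i) (θ : Fin n → ℝ)
    (h : IsLocalMin (En A) θ) (i : Fin n) : ∑ j, A i j * sin (θ i - θ j) = 0 := by
  have h1 := first_aux A θ h (fun k => if k = i then 1 else 0)
  have h2 : ∀ k l, A k l * (((if k = i then (1 : ℝ) else 0) - (if l = i then 1 else 0)) *
      sin (θ k - θ l)) = (if k = i then A k l * sin (θ k - θ l) else 0) +
        (if l = i then A l k * sin (θ l - θ k) else 0) := by
    intro k l
    have h3 : sin (θ l - θ k) = - sin (θ k - θ l) := by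
      rw [← sin_neg]; congr 1; ring
    rw [h3, hs l k]
    split_ifs <;> ring
  simp only [h2, Finset.sum_add_distrib] at h1
  have h4 : ∑ k, ∑ l, (if k = i then A k l * sin (θ k - θ l) else 0) =
      ∑ j, A i j * sin (θ i - θ j) := by
    rw [Finset.sum_comm]
    refine Finset.sum_congr rfl fun l _ => ?_
    rw [Finset.sum_ite_eq' Finset.univ i, if_pos (Finset.mem_univ i)]
  have h5 : ∑ k, ∑ l, (if l = i then A l k * sin (θ l - θ k) else 0) =
      ∑ j, A i j * sin (θ i - θ j) := by
    refine Finset.sum_congr rfl fun l _ => ?_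
    rw [Finset.sum_ite_eq' Finset.univ i, if_pos (Finset.mem_univ i)]
  rw [h4, h5] at h1
  linarith

theorem second (A : Fin n → Fin n → ℝ) (θ : Fin n → ℝ) (h : IsLocalMin (En A) θ)
    (u : Fin n → ℝ) : 0 ≤ ∑ i, ∑ j, A i j * (cos (θ i - θ j) * (u i - u j) ^ 2) := by
  have hc : ContinuousAt (fun t : ℝ => (fun i => θ i + t * u i : Fin n → ℝ)) 0 := by
    apply Continuous.continuousAt
    fun_prop
  have hc' : ContinuousAt (fun t : ℝ => (fun i => θ i - t * u i : Fin n → ℝ)) 0 := by
    apply Continuous.continuousAt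
    fun_prop
  have h1 : ∀ᶠ t in 𝓝 (0 : ℝ), En A θ ≤ En A (fun i => θ i + t * u i) := by
    have : Tendsto (fun t : ℝ => (fun i => θ i + t * u i : Fin n → ℝ)) (𝓝 0) (𝓝 θ) := by
      have := hc.tendsto
      simpa using this
    exact this.eventually h
  have h2 : ∀ᶠ t in 𝓝 (0 : ℝ), En A θ ≤ En A (fun i => θ i - t * u i) := by
    have : Tendsto (fun t : ℝ => (fun i => θ i - t * u i : Fin n → ℝ)) (𝓝 0) (𝓝 θ) := by
      have := hc'.tendsto
      simpa using this
    exact this.eventually h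
  have h3 : ∀ t : ℝ, En A (fun i => θ i + t * u i) + En A (fun i => θ i - t * u i) - 2 * En A θ =
      ∑ i, ∑ j, A i j * (cos (θ i - θ j) * (1 - cos (t * (u i - u j)))) := by
    intro t
    unfold En
    rw [← mul_add, ← Finset.sum_add_distrib]
    have : ∀ X Y : ℝ, 1 / 2 * X - 2 * (1 / 2 * Y) = 1 / 2 * (X - 2 * Y) := by intro X Y; ring
    rw [this, Finset.mul_sum, ← Finset.sum_sub_distrib, Finset.mul_sum]
    refine Finset.sum_congr rfl fun i _ => ?_
    rw [← Finset.sum_add_distrib, Finset.mul_sum, ← Finset.sum_sub_distrib, Finset.mul_sum]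
    refine Finset.sum_congr rfl fun j _ => ?_
    have e1 : cos (θ i + t * u i - (θ j + t * u j)) =
        cos (θ i - θ j) * cos (t * (u i - u j)) - sin (θ i - θ j) * sin (t * (u i - u j)) := by
      rw [← cos_add]; congr 1; ring
    have e2 : cos (θ i - t * u i - (θ j - t * u j)) =
        cos (θ i - θ j) * cos (t * (u i - u j)) + sin (θ i - θ j) * sin (t * (u i - u j)) := by
      rw [← cos_sub]; congr 1; ring
    rw [e1, e2]
    ring
  have h4 : ∀ᶠ t in 𝓝[≠] (0 : ℝ),
      0 ≤ ∑ i, ∑ j, A i j * (cos (θ i - θ j) * ((1 - cos (t * (u i - u j))) / t ^ 2)) := by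
    have h5 : ∀ᶠ t in 𝓝[≠] (0 : ℝ), t ≠ 0 := eventually_mem_nhdsWithin
    filter_upwards [h1.filter_mono nhdsWithin_le_nhds, h2.filter_mono nhdsWithin_le_nhds, h5]
      with t ht1 ht2 ht3
    have h6 := h3 t
    have h7 : 0 ≤ ∑ i, ∑ j, A i j * (cos (θ i - θ j) * (1 - cos (t * (u i - u j)))) := by
      rw [← h6]; linarith
    have h8 : ∑ i, ∑ j, A i j * (cos (θ i - θ j) * ((1 - cos (t * (u i - u j))) / t ^ 2)) =
        (∑ i, ∑ j, A i j * (cos (θ i - θ j) * (1 - cos (t * (u i - u j))))) / t ^ 2 := by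
      rw [Finset.sum_div]
      refine Finset.sum_congr rfl fun i _ => ?_
      rw [Finset.sum_div]
      refine Finset.sum_congr rfl fun j _ => ?_
      ring
    rw [h8]
    positivity
  have h5 : ∀ v : ℝ, Tendsto (fun t : ℝ => (1 - cos (t * v)) / t ^ 2) (𝓝[≠] 0) (𝓝 (v ^ 2 / 2)) := by
    intro v
    have hb : ∀ᶠ t in 𝓝[≠] (0 : ℝ), |(1 - cos (t * v)) / t ^ 2 - v ^ 2 / 2| ≤
        v ^ 4 * (5 / 96) * t ^ 2 := by
      have h6 : ∀ᶠ t in 𝓝 (0 : ℝ), |t * v| < 1 := by
        have : Tendsto (fun t : ℝ => |t * v|) (𝓝 0) (𝓝 0) := by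
          have : Continuous (fun t : ℝ => |t * v|) := by fun_prop
          simpa using this.tendsto 0
        exact this.eventually_lt_const one_pos
      have h7 : ∀ᶠ t in 𝓝[≠] (0 : ℝ), t ≠ 0 := eventually_mem_nhdsWithin
      filter_upwards [h6.filter_mono nhdsWithin_le_nhds, h7] with t ht ht0
      have h8 := cos_bound ht.le
      have h9 : (1 - cos (t * v)) / t ^ 2 - v ^ 2 / 2 =
          -(cos (t * v) - (1 - (t * v) ^ 2 / 2)) / t ^ 2 := by
        field_simp
        ring
      rw [h9, abs_div, abs_neg, abs_of_pos (by positivity : (0 : ℝ) < t ^ 2),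
        div_le_iff₀ (by positivity)]
      refine h8.trans (le_of_eq ?_)
      rw [abs_mul, mul_pow, ← abs_pow, ← abs_pow, abs_of_nonneg (by positivity : (0 : ℝ) ≤ t ^ 4),
        abs_of_nonneg (by positivity : (0 : ℝ) ≤ v ^ 4)]
      ring
    have hz : Tendsto (fun t : ℝ => v ^ 4 * (5 / 96) * t ^ 2) (𝓝[≠] 0) (𝓝 0) := by
      have : Continuous (fun t : ℝ => v ^ 4 * (5 / 96) * t ^ 2) := by fun_prop
      have h8 := this.tendsto 0
      simp only [ne_eq, OfNat.ofNat_ne_zero, not_false_eq_true, zero_pow, mul_zero] at h8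
      exact h8.mono_left nhdsWithin_le_nhds
    rw [tendsto_iff_norm_sub_tendsto_zero]
    exact squeeze_zero' (Eventually.of_forall fun t => norm_nonneg _) hb hz
  have h6 : Tendsto (fun t : ℝ =>
      ∑ i, ∑ j, A i j * (cos (θ i - θ j) * ((1 - cos (t * (u i - u j))) / t ^ 2))) (𝓝[≠] 0)
      (𝓝 (∑ i, ∑ j, A i j * (cos (θ i - θ j) * ((u i - u j) ^ 2 / 2)))) := by
    apply tendsto_finsetSum
    intro i _
    apply tendsto_finsetSum
    intro j _
    exact ((h5 (u i - u j)).const_mul _).const_mul _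
  have h7 := ge_of_tendsto h6 h4
  have h8 : ∑ i, ∑ j, A i j * (cos (θ i - θ j) * (u i - u j) ^ 2) =
      2 * ∑ i, ∑ j, A i j * (cos (θ i - θ j) * ((u i - u j) ^ 2 / 2)) := by
    rw [Finset.mul_sum]
    refine Finset.sum_congr rfl fun i _ => ?_
    rw [Finset.mul_sum]
    refine Finset.sum_congr rfl fun j _ => ?_
    ring
  rw [h8]
  linarith

theorem second_diag (A : Fin n → Fin n → ℝ) (hs : ∀ i j, A i j = A j i) (hd : ∀ i, A i i = 0)
    (θ : Fin n → ℝ) (h : IsLocalMin (En A) θ) (i : Fin n) :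
    0 ≤ ∑ j, A i j * cos (θ i - θ j) := by
  have h1 := second A θ h (fun k => if k = i then 1 else 0)
  have h2 : ∀ k l, A k l * (cos (θ k - θ l) *
      ((if k = i then (1 : ℝ) else 0) - (if l = i then 1 else 0)) ^ 2) =
      (if k = i then A k l * cos (θ k - θ l) else 0) +
        (if l = i then A l k * cos (θ l - θ k) else 0) := by
    intro k l
    have h3 : cos (θ l - θ k) = cos (θ k - θ l) := by
      rw [← cos_neg]; congr 1; ring
    rw [h3, hs l k]
    by_cases hk : k = i
    · by_cases hl : l = i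
      · subst hk; subst hl
        simp [hd]
      · simp [hk, hl]
    · by_cases hl : l = i
      · simp [hk, hl]
      · simp [hk, hl]
  simp only [h2, Finset.sum_add_distrib] at h1
  have h4 : ∑ k, ∑ l, (if k = i then A k l * cos (θ k - θ l) else 0) =
      ∑ j, A i j * cos (θ i - θ j) := by
    rw [Finset.sum_comm]
    refine Finset.sum_congr rfl fun l _ => ?_
    rw [Finset.sum_ite_eq' Finset.univ i, if_pos (Finset.mem_univ i)]
  have h5 : ∑ k, ∑ l, (if l = i then A l k * cos (θ l - θ k) else 0) =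
      ∑ j, A i j * cos (θ i - θ j) := by
    refine Finset.sum_congr rfl fun l _ => ?_
    rw [Finset.sum_ite_eq' Finset.univ i, if_pos (Finset.mem_univ i)]
  rw [h4, h5] at h1
  linarith

theorem second_glob (A : Fin n → Fin n → ℝ) (θ : Fin n → ℝ) (h : IsLocalMin (En A) θ) :
    0 ≤ ∑ i, ∑ j, A i j * (cos (θ i - θ j) * (1 - cos (θ i - θ j))) := by
  have h1 := second A θ h (fun k => cos (θ k))
  have h2 := second A θ h (fun k => sin (θ k))
  have h3 : ∑ i, ∑ j, A i j * (cos (θ i - θ j) * (cos (θ i) - cos (θ j)) ^ 2) +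
      ∑ i, ∑ j, A i j * (cos (θ i - θ j) * (sin (θ i) - sin (θ j)) ^ 2) =
      2 * ∑ i, ∑ j, A i j * (cos (θ i - θ j) * (1 - cos (θ i - θ j))) := by
    rw [← Finset.sum_add_distrib, Finset.mul_sum]
    refine Finset.sum_congr rfl fun i _ => ?_
    rw [← Finset.sum_add_distrib, Finset.mul_sum]
    refine Finset.sum_congr rfl fun j _ => ?_
    have e : (cos (θ i) - cos (θ j)) ^ 2 + (sin (θ i) - sin (θ j)) ^ 2 =
        2 * (1 - cos (θ i - θ j)) := by
      rw [cos_sub]
      have a := cos_sq_add_sin_sq (θ i)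
      have b := cos_sq_add_sin_sq (θ j)
      linear_combination a + b
    rw [← mul_add, ← mul_add, e]
    ring
  linarith

end Pool.Agent.TH966.Sync
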