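import Pool.Agent.W991.UP.Net
import Pool.Agent.TH966.Sync.Det
import Pool.Agent.TH966.Sync.Loc

/-!
# Energy landscape of signed couplings: the probabilistic part
-/

set_option autoImplicit false
set_option linter.unusedVariables false
set_option maxHeartbeats 1000000

open Finset Real Filter Topology

namespace Pool.Agent.TH966.Sync

variable {n : ℕ}

/-- weight of one bit -/
noncomputable def wt (δ : ℝ) (i j : Fin n) (b : Bool) : ℝ :=
  if i < j then (if b = true then (1/2 : ℝ) + δ else (1/2 : ℝ) - δ) else (1/2 : ℝ)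

/-- weight of an outcome -/
noncomputable def W (δ : ℝ) (s : Fin n → Fin n → Bool) : ℝ := ∏ i, ∏ j, wt δ i j (s i j)

/-- the coupling matrix of an outcome -/
noncomputable def AA (s : Fin n → Fin n → Bool) (i j : Fin n) : ℝ :=
  if i < j then (if s i j = true then (1:ℝ) else -1)
    else if j < i then (if s j i = true then (1:ℝ) else -1) else 0

theorem AA_symm (s : Fin n → Fin n → Bool) (i j : Fin n) : AA s i j = AA s j i := by
  unfold AA
  rcases lt_trichotomy i j with h | h | h
  · simp [h, not_lt.mpr h.le]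
  · subst h; rfl
  · simp [h, not_lt.mpr h.le]

theorem AA_diag (s : Fin n → Fin n → Bool) (i : Fin n) : AA s i i = 0 := by
  simp [AA]

theorem wt_nonneg {δ : ℝ} (h0 : 0 ≤ δ) (h1 : δ ≤ 1/2) (i j : Fin n) (b : Bool) :
    0 ≤ wt δ i j b := by
  unfold wt
  split_ifs <;> linarith

theorem wt_sum (δ : ℝ) (i j : Fin n) : ∑ b : Bool, wt δ i j b = 1 := by
  rw [Fintype.sum_bool]
  unfold wt
  split_ifs <;> simp_all <;> ring

theorem W_nonneg {δ : ℝ} (h0 : 0 ≤ δ) (h1 : δ ≤ 1/2) (s : Fin n → Fin n → Bool) : 0 ≤ W δ s :=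
  Finset.prod_nonneg fun i _ => Finset.prod_nonneg fun j _ => wt_nonneg h0 h1 i j _

theorem expo (δ : ℝ) (g : Fin n → Fin n → Bool → ℝ) :
    ∑ s : Fin n → Fin n → Bool, W δ s * Real.exp (∑ i, ∑ j, g i j (s i j)) =
      ∏ i, ∏ j, ∑ b : Bool, wt δ i j b * Real.exp (g i j b) := by
  have h1 : ∀ i : Fin n, ∏ j, ∑ b : Bool, wt δ i j b * Real.exp (g i j b) =
      ∑ r : Fin n → Bool, ∏ j, wt δ i j (r j) * Real.exp (g i j (r j)) := by
    intro i
    rw [Finset.prod_univ_sum, Fintype.piFinset_univ]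
  simp only [h1]
  rw [Finset.prod_univ_sum, Fintype.piFinset_univ]
  refine Finset.sum_congr rfl fun s _ => ?_
  unfold W
  rw [Real.exp_sum, ← Finset.prod_mul_distrib]
  refine Finset.prod_congr rfl fun i _ => ?_
  rw [Real.exp_sum, ← Finset.prod_mul_distrib]

theorem W_sum (δ : ℝ) : ∑ s : Fin n → Fin n → Bool, W δ s = 1 := by
  have := expo (n := n) δ (fun _ _ _ => 0)
  simp only [Finset.sum_const_zero, Real.exp_zero, mul_one, wt_sum, Finset.prod_const_one] at this
  exact this

/-- Hoeffding's lemma for one biased sign -/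
theorem hoeff1 (δ x : ℝ) (h0 : 0 ≤ δ) (h1 : δ ≤ 1/2) :
    (1/2 + δ) * Real.exp (x * (1 - 2 * δ)) + (1/2 - δ) * Real.exp (x * (-1 - 2 * δ)) ≤
      Real.exp (x ^ 2 / 2) := by
  set μ : MeasureTheory.Measure Bool :=
    ENNReal.ofReal (1/2 + δ) • MeasureTheory.Measure.dirac true +
      ENNReal.ofReal (1/2 - δ) • MeasureTheory.Measure.dirac false with hμ
  have hp : MeasureTheory.IsProbabilityMeasure μ := by
    constructor
    rw [hμ]
    simp only [MeasureTheory.Measure.coe_add, MeasureTheory.Measure.coe_smul, Pi.add_apply,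
      Pi.smul_apply, MeasureTheory.measure_univ, smul_eq_mul, mul_one]
    rw [← ENNReal.ofReal_add (by linarith) (by linarith)]
    norm_num
  set X : Bool → ℝ := fun b => if b = true then 1 else -1 with hX
  have hint : ∀ f : Bool → ℝ, ∫ b, f b ∂μ = (1/2 + δ) * f true + (1/2 - δ) * f false := by
    intro f
    have hf : ∀ (ν : MeasureTheory.Measure Bool) [MeasureTheory.IsFiniteMeasure ν],
        MeasureTheory.Integrable f ν := fun ν _ => MeasureTheory.Integrable.of_finite
    rw [hμ, MeasureTheory.integral_add_measure ((hf _).smul_measure ENNReal.ofReal_ne_top)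
      ((hf _).smul_measure ENNReal.ofReal_ne_top),
      MeasureTheory.integral_smul_measure, MeasureTheory.integral_smul_measure,
      MeasureTheory.integral_dirac, MeasureTheory.integral_dirac,
      ENNReal.toReal_ofReal (by linarith), ENNReal.toReal_ofReal (by linarith), smul_eq_mul,
      smul_eq_mul]
  have h2 := ProbabilityTheory.hasSubgaussianMGF_of_mem_Icc (μ := μ) (X := X) (a := -1) (b := 1)
    (measurable_of_finite _).aemeasurable (by
      refine Filter.Eventually.of_forall fun b => ?_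
      simp only [hX]
      split_ifs <;> constructor <;> norm_num)
  have h3 := h2.mgf_le x
  unfold ProbabilityTheory.mgf at h3
  rw [hint, hint] at h3
  simp only [hX, if_true, Bool.false_eq_true, if_false] at h3
  have e1 : (1 / 2 + δ) * 1 + (1 / 2 - δ) * -1 = 2 * δ := by ring
  rw [e1] at h3
  have e2 : (((‖(1:ℝ) - -1‖₊ / 2) ^ 2 : NNReal) : ℝ) = 1 := by
    push_cast
    rw [Real.norm_eq_abs]
    norm_num
  rw [e2] at h3
  simpa using h3

/-- the linear functional -/
noncomputable def Lin (δ : ℝ) (B : Fin n → Fin n → ℝ) (s : Fin n → Fin n → Bool) : ℝ :=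
  ∑ i, ∑ j, B i j * NN (AA s) (2 * δ) i j

theorem Lin_eq (δ : ℝ) (B : Fin n → Fin n → ℝ) (s : Fin n → Fin n → Bool) :
    Lin δ B s = ∑ i, ∑ j, (if i < j then (B i j + B j i) * ((if s i j = true then (1:ℝ) else -1)
      - 2 * δ) else 0) := by
  unfold Lin
  have h1 : ∀ i j : Fin n, B i j * NN (AA s) (2 * δ) i j =
      (if i < j then B i j * ((if s i j = true then (1:ℝ) else -1) - 2 * δ) else 0) +
      (if j < i then B i j * ((if s j i = true then (1:ℝ) else -1) - 2 * δ) else 0) := by
    intro i j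
    unfold NN AA
    rcases lt_trichotomy i j with h | h | h
    · simp [h, not_lt.mpr h.le, h.ne]
    · subst h; simp
    · simp [h, not_lt.mpr h.le, h.ne']
  simp only [h1, Finset.sum_add_distrib]
  have h2 : ∑ i : Fin n, ∑ j : Fin n,
      (if j < i then B i j * ((if s j i = true then (1:ℝ) else -1) - 2 * δ) else 0) =
      ∑ i : Fin n, ∑ j : Fin n,
      (if i < j then B j i * ((if s i j = true then (1:ℝ) else -1) - 2 * δ) else 0) :=
    Finset.sum_comm
  rw [h2, ← Finset.sum_add_distrib]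
  refine Finset.sum_congr rfl fun i _ => ?_
  rw [← Finset.sum_add_distrib]
  refine Finset.sum_congr rfl fun j _ => ?_
  split_ifs <;> ring

theorem mgf_le (δ : ℝ) (h0 : 0 ≤ δ) (h1 : δ ≤ 1/2) (B : Fin n → Fin n → ℝ) (lam : ℝ) :
    ∑ s : Fin n → Fin n → Bool, W δ s * Real.exp (lam * Lin δ B s) ≤
      Real.exp (lam ^ 2 / 2 * ∑ i, ∑ j, (if i < j then (B i j + B j i) ^ 2 else 0)) := by
  have e1 : ∀ s : Fin n → Fin n → Bool, lam * Lin δ B s = ∑ i, ∑ j,
      (fun (i j : Fin n) (b : Bool) => if i < j then (lam * (B i j + B j i)) *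
        ((if b = true then (1:ℝ) else -1) - 2 * δ) else 0) i j (s i j) := by
    intro s
    rw [Lin_eq, Finset.mul_sum]
    refine Finset.sum_congr rfl fun i _ => ?_
    rw [Finset.mul_sum]
    refine Finset.sum_congr rfl fun j _ => ?_
    dsimp only
    split_ifs <;> ring
  simp only [e1]
  rw [expo δ (fun (i j : Fin n) (b : Bool) => if i < j then (lam * (B i j + B j i)) *
        ((if b = true then (1:ℝ) else -1) - 2 * δ) else 0), Finset.mul_sum, Real.exp_sum]
  apply Finset.prod_le_prod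
  · intro i _
    apply Finset.prod_nonneg
    intro j _
    apply Finset.sum_nonneg
    intro b _
    exact mul_nonneg (wt_nonneg h0 h1 i j b) (Real.exp_pos _).le
  · intro i _
    rw [Finset.mul_sum, Real.exp_sum]
    apply Finset.prod_le_prod
    · intro j _
      apply Finset.sum_nonneg
      intro b _
      exact mul_nonneg (wt_nonneg h0 h1 i j b) (Real.exp_pos _).le
    · intro j _
      rw [Fintype.sum_bool]
      by_cases h : i < j
      · have := hoeff1 δ (lam * (B i j + B j i)) h0 h1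
        simp only [wt, h, if_true, Bool.false_eq_true, if_false]
        refine this.trans (le_of_eq ?_)
        congr 1
        ring
      · simp only [wt, h, if_false, Real.exp_zero, mul_zero]
        norm_num

open Classical in
/-- probability of an event -/
noncomputable def Pr (δ : ℝ) (S : (Fin n → Fin n → Bool) → Prop) : ℝ :=
  ∑ s : Fin n → Fin n → Bool, if S s then W δ s else 0

theorem Pr_mono {δ : ℝ} (h0 : 0 ≤ δ) (h1 : δ ≤ 1/2) {S T : (Fin n → Fin n → Bool) → Prop}
    (h : ∀ s, S s → T s) : Pr δ S ≤ Pr δ T := by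
  unfold Pr
  refine Finset.sum_le_sum fun s _ => ?_
  have := W_nonneg h0 h1 s
  by_cases hs : S s
  · simp [hs, h s hs]
  · simp only [hs, if_false]
    split_ifs <;> linarith

theorem Pr_exists {δ : ℝ} (h0 : 0 ≤ δ) (h1 : δ ≤ 1/2) {ι : Type} (F : Finset ι)
    (S : ι → (Fin n → Fin n → Bool) → Prop) :
    Pr δ (fun s => ∃ x ∈ F, S x s) ≤ ∑ x ∈ F, Pr δ (S x) := by
  classical
  unfold Pr
  rw [Finset.sum_comm]
  refine Finset.sum_le_sum fun s _ => ?_
  have hW := W_nonneg h0 h1 s
  beta_reduce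
  by_cases hs : ∃ x ∈ F, S x s
  · obtain ⟨x, hx, hxs⟩ := hs
    rw [if_pos ⟨x, hx, hxs⟩]
    have h5 := Finset.single_le_sum (f := fun x => if S x s then W δ s else 0)
      (fun y _ => by split_ifs <;> linarith) hx
    rw [if_pos hxs] at h5
    refine h5.trans (le_of_eq ?_)
    refine Finset.sum_congr rfl fun y _ => ?_
    congr
  · rw [if_neg hs]
    exact Finset.sum_nonneg fun y _ => by split_ifs <;> linarith

theorem Pr_or {δ : ℝ} (h0 : 0 ≤ δ) (h1 : δ ≤ 1/2) (S T : (Fin n → Fin n → Bool) → Prop) :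
    Pr δ (fun s => S s ∨ T s) ≤ Pr δ S + Pr δ T := by
  classical
  unfold Pr
  rw [← Finset.sum_add_distrib]
  refine Finset.sum_le_sum fun s _ => ?_
  have hW := W_nonneg h0 h1 s
  by_cases hs : S s <;> by_cases ht : T s <;> simp [hs, ht] <;> linarith

theorem Pr_compl {δ : ℝ} (S : (Fin n → Fin n → Bool) → Prop) :
    Pr δ S + Pr δ (fun s => ¬ S s) = 1 := by
  classical
  unfold Pr
  rw [← Finset.sum_add_distrib, ← W_sum (n := n) δ]
  refine Finset.sum_congr rfl fun s _ => ?_
  by_cases hs : S s <;> simp [hs]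

theorem Pr_nonneg {δ : ℝ} (h0 : 0 ≤ δ) (h1 : δ ≤ 1/2) (S : (Fin n → Fin n → Bool) → Prop) :
    0 ≤ Pr δ S := by
  unfold Pr
  refine Finset.sum_nonneg fun s _ => ?_
  have := W_nonneg h0 h1 s
  split_ifs <;> linarith

/-- Chernoff bound -/
theorem tailB (δ : ℝ) (h0 : 0 ≤ δ) (h1 : δ ≤ 1/2) (B : Fin n → Fin n → ℝ) (t V : ℝ) (ht : 0 ≤ t)
    (hV : 0 < V) (hB : ∑ i, ∑ j, (if i < j then (B i j + B j i) ^ 2 else 0) ≤ V) :
    Pr δ (fun s => t < Lin δ B s) ≤ Real.exp (-(t ^ 2 / (2 * V))) := by
  set lam := t / V with hl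
  have hl0 : 0 ≤ lam := by positivity
  have h2 := mgf_le δ h0 h1 B lam
  have h3 : Pr δ (fun s => t < Lin δ B s) ≤
      Real.exp (-(lam * t)) * ∑ s : Fin n → Fin n → Bool, W δ s * Real.exp (lam * Lin δ B s) := by
    unfold Pr
    rw [Finset.mul_sum]
    refine Finset.sum_le_sum fun s _ => ?_
    have hW := W_nonneg h0 h1 s
    split_ifs with h
    · have : 1 ≤ Real.exp (-(lam * t)) * Real.exp (lam * Lin δ B s) := by
        rw [← Real.exp_add]
        apply Real.one_le_exp
        have := mul_le_mul_of_nonneg_left h.le hl0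
        linarith
      calc W δ s = W δ s * 1 := (mul_one _).symm
        _ ≤ W δ s * (Real.exp (-(lam * t)) * Real.exp (lam * Lin δ B s)) :=
          mul_le_mul_of_nonneg_left this hW
        _ = _ := by ring
    · positivity
  calc Pr δ (fun s => t < Lin δ B s) ≤ _ := h3
    _ ≤ Real.exp (-(lam * t)) * Real.exp (lam ^ 2 / 2 * V) := by
        refine mul_le_mul_of_nonneg_left (h2.trans (Real.exp_le_exp.mpr ?_)) (Real.exp_pos _).le
        exact mul_le_mul_of_nonneg_left hB (by positivity)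
    _ = Real.exp (-(t ^ 2 / (2 * V))) := by
        rw [← Real.exp_add]
        congr 1
        rw [hl]
        field_simp
        ring

/-- the operator norm of the noise is small with high probability -/
theorem norm_bad (δ : ℝ) (h0 : 0 ≤ δ) (h1 : δ ≤ 1/2) (hn : 0 < n) :
    Pr δ (fun s : Fin n → Fin n → Bool => ¬ ∀ x : Fin n → ℝ,
      ∑ i, (∑ j, NN (AA s) (2 * δ) i j * x j) ^ 2 ≤ (4000 * n) * ∑ j, x j ^ 2) ≤
      Real.exp (-(n : ℝ)) := by
  have hn0 : (0 : ℝ) < n := by exact_mod_cast hn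
  have hsn : √(n : ℝ) ^ 2 = n := Real.sq_sqrt hn0.le
  have h2 : Pr δ (fun s : Fin n → Fin n → Bool => ¬ ∀ x : Fin n → ℝ,
      ∑ i, (∑ j, NN (AA s) (2 * δ) i j * x j) ^ 2 ≤ (4000 * n) * ∑ j, x j ^ 2) ≤
      Pr δ (fun s => ∃ q ∈ W991.UP.UU n ×ˢ W991.UP.UU n,
        80 * n * √(n : ℝ) < Lin δ (fun i j => (q.1 i : ℝ) * (q.2 j : ℝ)) s) := by
    apply Pr_mono h0 h1
    intro s hs
    by_contra hcon
    apply hs
    intro x
    have h3 := W991.UP.det_step n n hn hn (fun i j => NN (AA s) (2 * δ) i j / 2) (by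
      intro u z hu hz
      by_contra hlt
      push Not at hlt
      apply hcon
      refine ⟨(u, z), ?_, ?_⟩
      · rw [Finset.mem_product]
        exact ⟨W991.UP.mem_UU n u hu, W991.UP.mem_UU n z hz⟩
      · have : Lin δ (fun i j => (u i : ℝ) * (z j : ℝ)) s =
            2 * ∑ i, ∑ j, (u i : ℝ) * (z j : ℝ) * (NN (AA s) (2 * δ) i j / 2) := by
          unfold Lin
          rw [Finset.mul_sum]
          refine Finset.sum_congr rfl fun i _ => ?_
          rw [Finset.mul_sum]
          refine Finset.sum_congr rfl fun j _ => ?_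
          ring
        dsimp only
        rw [this]
        linarith) x
    have h4 : ∑ i, (∑ j, NN (AA s) (2 * δ) i j / 2 * x j) ^ 2 =
        (∑ i, (∑ j, NN (AA s) (2 * δ) i j * x j) ^ 2) / 4 := by
      rw [Finset.sum_div]
      refine Finset.sum_congr rfl fun i _ => ?_
      have : ∑ j, NN (AA s) (2 * δ) i j / 2 * x j = (∑ j, NN (AA s) (2 * δ) i j * x j) / 2 := by
        rw [Finset.sum_div]
        refine Finset.sum_congr rfl fun j _ => ?_
        ring
      rw [this]
      ring
    rw [h4] at h3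
    linarith
  refine h2.trans ((Pr_exists h0 h1 _ _).trans ?_)
  have h5 : ∀ q ∈ W991.UP.UU n ×ˢ W991.UP.UU n,
      Pr δ (fun s => 80 * n * √(n : ℝ) < Lin δ (fun i j => (q.1 i : ℝ) * (q.2 j : ℝ)) s) ≤
        Real.exp (-(1024 / 25 * n)) := by
    intro q hq
    rw [Finset.mem_product] at hq
    have hu : ∑ i, ((q.1 i : ℝ)) ^ 2 ≤ 25 / 4 * n := by
      have := hq.1
      unfold W991.UP.UU at this
      exact (Finset.mem_filter.mp this).2
    have hz : ∑ j, ((q.2 j : ℝ)) ^ 2 ≤ 25 / 4 * n := by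
      have := hq.2
      unfold W991.UP.UU at this
      exact (Finset.mem_filter.mp this).2
    have h6 := tailB δ h0 h1 (fun i j => (q.1 i : ℝ) * (q.2 j : ℝ)) (80 * n * √(n : ℝ))
      (625 / 8 * n ^ 2) (by positivity) (by positivity) (by
        have e1 : ∑ i, ∑ j, (if i < j then ((q.1 i : ℝ) * (q.2 j : ℝ) +
            (q.1 j : ℝ) * (q.2 i : ℝ)) ^ 2 else 0) ≤
            ∑ i : Fin n, ∑ j : Fin n, (if i < j then (2 * ((q.1 i : ℝ) * (q.2 j : ℝ)) ^ 2) else 0) +
            ∑ i : Fin n, ∑ j : Fin n, (if i < j then (2 * ((q.1 j : ℝ) * (q.2 i : ℝ)) ^ 2) else 0) := by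
          rw [← Finset.sum_add_distrib]
          refine Finset.sum_le_sum fun i _ => ?_
          rw [← Finset.sum_add_distrib]
          refine Finset.sum_le_sum fun j _ => ?_
          split_ifs
          · nlinarith [sq_nonneg ((q.1 i : ℝ) * (q.2 j : ℝ) - (q.1 j : ℝ) * (q.2 i : ℝ))]
          · simp
        have e2 : ∑ i : Fin n, ∑ j : Fin n,
            (if i < j then (2 * ((q.1 j : ℝ) * (q.2 i : ℝ)) ^ 2) else 0) =
            ∑ i : Fin n, ∑ j : Fin n,
            (if j < i then (2 * ((q.1 i : ℝ) * (q.2 j : ℝ)) ^ 2) else 0) := Finset.sum_comm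
        rw [e2, ← Finset.sum_add_distrib] at e1
        refine e1.trans ?_
        have e3 : ∑ i : Fin n, (∑ j : Fin n,
            (if i < j then (2 * ((q.1 i : ℝ) * (q.2 j : ℝ)) ^ 2) else 0) +
            ∑ j : Fin n, (if j < i then (2 * ((q.1 i : ℝ) * (q.2 j : ℝ)) ^ 2) else 0)) ≤
            ∑ i : Fin n, ∑ j : Fin n, 2 * ((q.1 i : ℝ) * (q.2 j : ℝ)) ^ 2 := by
          refine Finset.sum_le_sum fun i _ => ?_
          rw [← Finset.sum_add_distrib]
          refine Finset.sum_le_sum fun j _ => ?_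
          have : 0 ≤ 2 * ((q.1 i : ℝ) * (q.2 j : ℝ)) ^ 2 := by positivity
          rcases lt_trichotomy i j with h | h | h
          · simp only [h, not_lt.mpr h.le, if_true, if_false]; linarith
          · subst h; simpa using this
          · simp only [h, not_lt.mpr h.le, if_true, if_false]; linarith
        refine e3.trans ?_
        have e4 : ∑ i : Fin n, ∑ j : Fin n, 2 * ((q.1 i : ℝ) * (q.2 j : ℝ)) ^ 2 =
            2 * ((∑ i, ((q.1 i : ℝ)) ^ 2) * ∑ j, ((q.2 j : ℝ)) ^ 2) := by
          rw [Finset.sum_mul_sum, Finset.mul_sum]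
          refine Finset.sum_congr rfl fun i _ => ?_
          rw [Finset.mul_sum]
          refine Finset.sum_congr rfl fun j _ => ?_
          ring
        rw [e4]
        have e5 : (∑ i, ((q.1 i : ℝ)) ^ 2) * ∑ j, ((q.2 j : ℝ)) ^ 2 ≤ (25 / 4 * n) * (25 / 4 * n) :=
          mul_le_mul hu hz (Finset.sum_nonneg fun j _ => sq_nonneg _) (by positivity)
        calc 2 * ((∑ i, ((q.1 i : ℝ)) ^ 2) * ∑ j, ((q.2 j : ℝ)) ^ 2) ≤
            2 * ((25 / 4 * n) * (25 / 4 * n)) := by linarith
          _ = 625 / 8 * n ^ 2 := by ring)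
    refine h6.trans (le_of_eq ?_)
    congr 1
    rw [mul_pow, mul_pow, hsn]
    field_simp
    norm_num
  calc ∑ q ∈ W991.UP.UU n ×ˢ W991.UP.UU n,
      Pr δ (fun s => 80 * n * √(n : ℝ) < Lin δ (fun i j => (q.1 i : ℝ) * (q.2 j : ℝ)) s)
      ≤ ∑ q ∈ W991.UP.UU n ×ˢ W991.UP.UU n, Real.exp (-(1024 / 25 * (n : ℝ))) :=
        Finset.sum_le_sum h5
    _ = ((W991.UP.UU n).card : ℝ) * ((W991.UP.UU n).card : ℝ) *
        Real.exp (-(1024 / 25 * (n : ℝ))) := by
        rw [Finset.sum_const, Finset.card_product, nsmul_eq_mul]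
        push_cast
        ring
    _ ≤ Real.exp (33 / 4 * n) * Real.exp (33 / 4 * n) * Real.exp (-(1024 / 25 * (n : ℝ))) := by
        have := W991.UP.card_UU n
        gcongr
    _ ≤ Real.exp (-(n : ℝ)) := by
        rw [← Real.exp_add, ← Real.exp_add]
        apply Real.exp_le_exp.mpr
        linarith

/-- the row sums are large with high probability -/
theorem row_bad (δ : ℝ) (h0 : 0 ≤ δ) (h1 : δ ≤ 1/2) (hn : 0 < n) (c : ℝ) (hc : 1 ≤ c * n)
    (hc2 : 2 * c ≤ 1) (i₀ : Fin n) :
    Pr δ (fun s : Fin n → Fin n → Bool => ∑ j, AA s i₀ j < c * (2 * δ * n)) ≤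
      Real.exp (-((2 * δ) ^ 2 * (1 - 2 * c) ^ 2 * n / 2)) := by
  have hn0 : (0 : ℝ) < n := by exact_mod_cast hn
  have h2 : Pr δ (fun s : Fin n → Fin n → Bool => ∑ j, AA s i₀ j < c * (2 * δ * n)) ≤
      Pr δ (fun s => (2 * δ) * (1 - 2 * c) * n < Lin δ (fun i _ => if i = i₀ then -1 else 0) s) := by
    apply Pr_mono h0 h1
    intro s hs
    have e1 : Lin δ (fun i _ => if i = i₀ then -1 else 0) s = -∑ j, NN (AA s) (2 * δ) i₀ j := by
      unfold Lin
      rw [Finset.sum_comm, ← Finset.sum_neg_distrib]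
      refine Finset.sum_congr rfl fun j _ => ?_
      simp only [ite_mul, neg_mul, one_mul, zero_mul]
      rw [Finset.sum_ite_eq' Finset.univ i₀, if_pos (Finset.mem_univ i₀)]
    have e2 : ∑ j, AA s i₀ j = 2 * δ * (n - 1) + ∑ j, NN (AA s) (2 * δ) i₀ j := by
      have := rowsplit (AA s) (2 * δ) (fun _ => 1) i₀
      simp only [mul_one, Finset.sum_const, Finset.card_univ, Fintype.card_fin, nsmul_eq_mul] at this
      rw [this]
      ring
    rw [e1]
    rw [e2] at hs
    have e3 : 2 * δ * 1 ≤ 2 * δ * (c * n) := mul_le_mul_of_nonneg_left hc (by linarith)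
    nlinarith
  refine h2.trans ?_
  have h3 := tailB δ h0 h1 (fun i _ => if i = i₀ then -1 else 0) ((2 * δ) * (1 - 2 * c) * n) n
    (by
      have : 0 ≤ 1 - 2 * c := by linarith
      positivity) hn0 (by
      have e1 : ∑ i : Fin n, ∑ j : Fin n, (if i < j then ((if i = i₀ then (-1:ℝ) else 0) +
          (if j = i₀ then -1 else 0)) ^ 2 else 0) =
          ∑ i : Fin n, ∑ j : Fin n, ((if i < j then (if i = i₀ then (1:ℝ) else 0) else 0) +
          (if i < j then (if j = i₀ then 1 else 0) else 0)) := by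
        refine Finset.sum_congr rfl fun i _ => Finset.sum_congr rfl fun j _ => ?_
        by_cases h : i < j
        · by_cases ha : i = i₀
          · have hb : j ≠ i₀ := by rintro rfl; exact absurd h (by rw [ha]; exact lt_irrefl _)
            simp [h, ha, hb]
          · by_cases hb : j = i₀ <;> simp [h, ha, hb]
        · simp [h]
      rw [e1]
      simp only [Finset.sum_add_distrib]
      have e2 : ∑ i : Fin n, ∑ j : Fin n, (if i < j then (if j = i₀ then (1:ℝ) else 0) else 0) =
          ∑ i : Fin n, ∑ j : Fin n, (if j < i then (if i = i₀ then (1:ℝ) else 0) else 0) :=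
        Finset.sum_comm
      rw [e2, ← Finset.sum_add_distrib]
      have e3 : ∀ i : Fin n, (∑ j : Fin n, (if i < j then (if i = i₀ then (1:ℝ) else 0) else 0)) +
          ∑ j : Fin n, (if j < i then (if i = i₀ then (1:ℝ) else 0) else 0) ≤
          if i = i₀ then (n : ℝ) else 0 := by
        intro i
        rw [← Finset.sum_add_distrib]
        by_cases hi : i = i₀
        · simp only [hi, if_true]
          calc ∑ x : Fin n, ((if i₀ < x then (1:ℝ) else 0) + if x < i₀ then 1 else 0) ≤
              ∑ x : Fin n, (1 : ℝ) := by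
                refine Finset.sum_le_sum fun x _ => ?_
                rcases lt_trichotomy i₀ x with h | h | h
                · simp [h, not_lt.mpr h.le]
                · subst h; simp
                · simp [h, not_lt.mpr h.le]
            _ = n := by simp
        · simp [hi]
      refine (Finset.sum_le_sum fun i _ => e3 i).trans ?_
      rw [Finset.sum_ite_eq' Finset.univ i₀, if_pos (Finset.mem_univ i₀)])
  refine h3.trans (le_of_eq ?_)
  congr 1
  field_simp

end Pool.Agent.TH966.Sync
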